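import Mathlib
import Pool.Agent.H.MP_265233_co.A

namespace Pool.Agent.Results.MP_265233_co.Unbounded

open Pool.Agent.H.MP_265233_co

/-- `A u v` is the arc `u → v`; a tournament is an orientation of the complete graph. -/
def IsTournament {V : Type} (A : V → V → Prop) : Prop :=
  (∀ u, ¬ A u u) ∧ ∀ u v, u ≠ v → (A u v ↔ ¬ A v u)

/-- Some total order makes the forward arcs transitive. -/
def IsPosetTournament {V : Type} (A : V → V → Prop) : Prop :=
  IsTournament A ∧ ∃ o : LinearOrder V, ∀ u v w, o.lt u v → o.lt v w → A u v → A v w → A u w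

/-- Dichromatic number: least number of colours with every colour class acyclic. -/
noncomputable def dichrom {V : Type} (A : V → V → Prop) : ℕ :=
  sInf {k | ∃ c : V → Fin k, ∀ v, ¬ Relation.TransGen (fun x y => A x y ∧ c x = c y) v v}

/-- Backedge graph for a total order. -/
def backedge {V : Type} (A : V → V → Prop) (o : LinearOrder V) : SimpleGraph V :=
  SimpleGraph.fromRel fun v w => o.lt v w ∧ A w v

/-- Clique number of a digraph: least clique number of a backedge graph. -/
noncomputable def diclique {V : Type} (A : V → V → Prop) : ℕ :=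
  sInf {k | ∃ o : LinearOrder V, (backedge A o).cliqueNum = k}

theorem result (m : ℕ) : ∃ (V : Type) (_ : Fintype V) (A : V → V → Prop),
    IsPosetTournament A ∧ diclique A ≤ 2 ∧ m < dichrom A := by
  classical
  obtain ⟨V, _, a, b, ha, hb, h⟩ := hasse (2 * m)
  let A : V → V → Prop := fun u v => (a u < a v ∧ ¬ Cov a b u v) ∨ Cov a b v u
  have hirr : ∀ u, ¬ A u u := fun u hu => by
    rcases hu with hu | hu <;> exact lt_irrefl _ hu.1
  have hane : ∀ {u v}, u ≠ v → a u ≠ a v := fun h e => h (ha e)
  refine ⟨V, inferInstance, A, ⟨⟨hirr, fun u v huv => ?_⟩, LinearOrder.lift' b hb, ?_⟩, ?_, ?_⟩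
  · have := hane huv
    constructor
    · rintro (⟨h1, h2⟩ | h1) (⟨h3, h4⟩ | h3)
      · omega
      · exact h2 h3
      · exact h4 h1
      · have := h1.1; have := h3.1; omega
    · intro hn
      by_cases h1 : a u < a v
      · exact Or.inl ⟨h1, fun hc => hn (Or.inr hc)⟩
      · by_contra hc
        exact hn (Or.inl ⟨by omega, fun hc' => hc (Or.inr hc')⟩)
  · intro u v w huv hvw h1 h2
    have huv : b u < b v := huv
    have hvw : b v < b w := hvw
    rcases h1 with h1 | h1
    · rcases h2 with h2 | h2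
      · exact Or.inl ⟨h1.1.trans h2.1, fun hc => hc.2.2 ⟨v, h1.1, h2.1, huv, hvw⟩⟩
      · have := h2.2.1; omega
    · have := h1.2.1; omega
  · refine (Nat.sInf_le (show (backedge A (LinearOrder.lift' a ha)).cliqueNum ∈
      {k | ∃ o : LinearOrder V, (backedge A o).cliqueNum = k} from ⟨_, rfl⟩)).trans ?_
    have hadj : ∀ u v, (backedge A (LinearOrder.lift' a ha)).Adj u v →
        Cov a b u v ∨ Cov a b v u := by
      intro u v huv
      rw [backedge, SimpleGraph.fromRel_adj] at huv
      rcases huv.2 with ⟨h1, h2 | h2⟩ | ⟨h1, h2 | h2⟩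
      · have h1 : a u < a v := h1
        have := h2.1; omega
      · exact Or.inl h2
      · have h1 : a v < a u := h1
        have := h2.1; omega
      · exact Or.inr h2
    have hfree : (backedge A (LinearOrder.lift' a ha)).CliqueFree 3 := by
      intro s hs
      obtain ⟨x, y, z, h1, h2, h3, -⟩ := SimpleGraph.is3Clique_iff.1 hs
      have tri : ∀ p q r, Cov a b p q → Cov a b q r → ¬ Cov a b p r := fun p q r e1 e2 e3 =>
        e3.2.2 ⟨q, e1.1, e2.1, e1.2.1, e2.2.1⟩
      rcases hadj _ _ h1 with e1 | e1 <;> rcases hadj _ _ h2 with e2 | e2 <;>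
        rcases hadj _ _ h3 with e3 | e3
      · exact tri _ _ _ e1 e3 e2
      · exact tri _ _ _ e2 e3 e1
      · have := e1.1; have := e2.1; have := e3.1; omega
      · exact tri _ _ _ e2 e1 e3
      · exact tri _ _ _ e1 e2 e3
      · have := e1.1; have := e2.1; have := e3.1; omega
      · exact tri _ _ _ e3 e2 e1
      · exact tri _ _ _ e3 e1 e2
    obtain ⟨s, hs⟩ := (backedge A (LinearOrder.lift' a ha)).exists_isNClique_cliqueNum
    by_contra hc
    exact hfree.mono (show 3 ≤ _ by omega) s hs
  · by_contra hc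
    have hne : {k | ∃ c : V → Fin k,
        ∀ v, ¬ Relation.TransGen (fun x y => A x y ∧ c x = c y) v v}.Nonempty := by
      refine ⟨_, Fintype.equivFin V, fun v hv => ?_⟩
      obtain ⟨w, hw, -⟩ := Relation.TransGen.head'_iff.1 hv
      obtain rfl := (Fintype.equivFin V).injective hw.2
      exact hirr v hw.1
    obtain ⟨c, hcy⟩ := Nat.sInf_mem hne
    have hle : dichrom A ≤ m := not_lt.1 hc
    let fl : V → ℕ := fun v => if ∃ u, Cov a b u v ∧ c u = c v then 1 else 0
    have hfl : ∀ v, fl v ≤ 1 := fun v => by simp only [fl]; split_ifs <;> omega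
    obtain ⟨u, v, huv, he⟩ := h (Finset.range (2 * m)) (fun v => 2 * c v + fl v) (by simp)
      (fun v => by
        have h1 : (c v : ℕ) < dichrom A := (c v).2
        have := hfl v
        rw [Finset.mem_range]; omega)
    have h1 := hfl u
    have h2 := hfl v
    have hcuv : c u = c v := Fin.ext (by omega)
    have hv1 : fl v = 1 := if_pos ⟨u, huv, hcuv⟩
    have hu1 : fl u = 1 := by
      have : (c u : ℕ) = c v := congrArg _ hcuv
      omega
    have hex : ∃ w, Cov a b w u ∧ c w = c u := by
      by_contra hn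
      have : fl u = 0 := if_neg hn
      omega
    obtain ⟨w, hwu, hcw⟩ := hex
    refine hcy w (((Relation.TransGen.single ⟨Or.inl ⟨hwu.1.trans huv.1, fun hc =>
      hc.2.2 ⟨u, hwu.1, huv.1, hwu.2.1, huv.2.1⟩⟩, hcw.trans hcuv⟩).tail
      ⟨Or.inr huv, hcuv.symm⟩).tail ⟨Or.inr hwu, hcw.symm⟩)

end Pool.Agent.Results.MP_265233_co.Unbounded
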